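import Pool.Agent.Lib.helper4.CXTok

set_option autoImplicit false
set_option linter.unusedSectionVars false

namespace Pool.Agent.H.MP_8c4891_lc

open Pool.Agent.Lib.CX Function

variable {K : Type} [DecidableEq K] [Inhabited K]

abbrev Y (K : Type) := ℕ × Act K

set_option synthInstance.maxSize 1000 in
instance : DecidableEq (Act K) := fun _ _ => instDecidableEqProd _ _
instance : DecidableEq (Y K) := fun _ _ => instDecidableEqProd _ _

abbrev q0 : Q8 := ((false, false), false)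
abbrev vR (k : K) (q : Q8) : Y K := (0, k, q, [], [])
abbrev vT (k : K) : Y K := (3, k, q0, [], [])
abbrev vC (n : ℕ) : Y K := (n, default, q0, [], [])

def chk (T : List K) (A : List (Act K)) : List (Act K) := A ++ T.map fun k => (k, q0, [], [])
def wit (A : List (Act K)) (a : Act K) : List (Y K) :=
  vC 6 :: (q8.map (vR a.1) ++ (a.2.2.1.map (fun w => vR w.1 w.2) ++ (A.filter (· ≠ a)).map (2, ·)))
def out (a : Act K) : List (Y K) := (2, a) :: vT a.1 :: a.2.2.2.map (vR a.1)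
def edges (T : List K) (A : List (Act K)) : List (ℕ × Y K × Y K) :=
  A.flatMap (fun a => (0, vR a.1 a.2.1, (1, a)) :: (out a).map fun w => (0, (1, a), w)) ++
    (chk T A).flatMap fun a => (1, vC 5, (4, a)) :: (wit A a).flatMap fun w => [(1, (4, a), w), (1, w, vC 7)]

def mv (p : Y K → Option ℕ) (u v : Y K) (i : ℕ) : Y K → Option ℕ :=
  update (update p u none) v (if p v = none then some i else none)

variable {T : List K} {A : List (Act K)} {p q : Y K → Option ℕ}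

theorem mv_apply (p : Y K → Option ℕ) (u v w : Y K) (i : ℕ) : mv p u v i w =
    if w = v then (if p v = none then some i else none) else if w = u then none else p w := by
  simp only [mv, update_apply]

theorem move_iff : MoveF false (edges T A) p q ↔
    (∃ a ∈ A, p (vR a.1 a.2.1) = some 0 ∧ q = mv p (vR a.1 a.2.1) (1, a) 0 ∨
      ∃ w ∈ out a, p (1, a) = some 0 ∧ q = mv p (1, a) w 0) ∨
    ∃ a ∈ chk T A, p (vC 5) = some 1 ∧ q = mv p (vC 5) (4, a) 1 ∨
      ∃ w ∈ wit A a, p (4, a) = some 1 ∧ q = mv p (4, a) w 1 ∨ p w = some 1 ∧ q = mv p w (vC 7) 1 := by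
  simp only [MoveF, edges, List.mem_append, List.mem_flatMap, List.mem_cons, List.mem_map, List.not_mem_nil,
    or_false, Bool.false_eq_true, mv]
  constructor
  · rintro ⟨e, ⟨a, ha, rfl | ⟨w, hw, rfl⟩⟩ | ⟨a, ha, rfl | ⟨w, hw, rfl | rfl⟩⟩, h⟩
    exacts [.inl ⟨a, ha, .inl h⟩, .inl ⟨a, ha, .inr ⟨w, hw, h⟩⟩, .inr ⟨a, ha, .inl h⟩,
      .inr ⟨a, ha, .inr ⟨w, hw, .inl h⟩⟩, .inr ⟨a, ha, .inr ⟨w, hw, .inr h⟩⟩]
  · rintro (⟨a, ha, h | ⟨w, hw, h⟩⟩ | ⟨a, ha, h | ⟨w, hw, h | h⟩⟩)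
    exacts [⟨_, .inl ⟨a, ha, .inl rfl⟩, h⟩, ⟨_, .inl ⟨a, ha, .inr ⟨w, hw, rfl⟩⟩, h⟩, ⟨_, .inr ⟨a, ha, .inl rfl⟩, h⟩,
      ⟨_, .inr ⟨a, ha, .inr ⟨w, hw, .inl rfl⟩⟩, h⟩, ⟨_, .inr ⟨a, ha, .inr ⟨w, hw, .inr rfl⟩⟩, h⟩]

theorem mem_wit {a : Act K} {w : Y K} : w ∈ wit A a ↔ w = vC 6 ∨ (∃ q, w = vR a.1 q) ∨
    (∃ x ∈ a.2.2.1, w = vR x.1 x.2) ∨ ∃ b ∈ A, b ≠ a ∧ w = (2, b) := by
  simp [wit, mem_q8, eq_comm (b := w), and_assoc, -Prod.exists, -Prod.forall]

theorem mem_out {a : Act K} {w : Y K} : w ∈ out a ↔ w = (2, a) ∨ w = vT a.1 ∨ ∃ t ∈ a.2.2.2, w = vR a.1 t := by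
  simp [out, eq_comm, -Prod.exists]

theorem wit_k {a : Act K} {w : Y K} (h : w ∈ wit A a) : w = vC 6 ∨ w.1 = 0 ∨ w.1 = 2 := by
  rcases mem_wit.1 h with h | ⟨_, rfl⟩ | ⟨_, -, rfl⟩ | ⟨_, -, -, rfl⟩ <;> simp [*]

theorem out_k {a : Act K} {w : Y K} (h : w ∈ out a) : w.1 = 0 ∨ w.1 = 2 ∨ w.1 = 3 := by
  rcases mem_out.1 h with rfl | rfl | ⟨_, -, rfl⟩ <;> simp

/-- tokens of type 0 are in the memory, the token of type 1 is at `h` or dead -/
def Ty (p : Y K → Option ℕ) (h : Y K) : Prop :=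
  ∀ v i, p v = some i → i = 0 ∧ v.1 ≤ 3 ∨ i = 1 ∧ (v = h ∨ v = vC 7)

theorem Ty.four (h : Ty p (vC 5)) (b : Act K) : p (4, b) = none :=
  Option.eq_none_iff_forall_ne_some.2 fun i e => by simpa using h _ _ e

theorem Ty.six (h : Ty p (vC 5)) : p (vC 6) = none :=
  Option.eq_none_iff_forall_ne_some.2 fun i e => by simpa using h _ _ e

def sink (p : Y K → Option ℕ) (a : Act K) : Y K → Option ℕ := mv (mv p (vR a.1 a.2.1) (1, a) 0) (1, a) (vT a.1) 0

theorem ind (Φ : (Y K → Option ℕ) → Prop) (h : ∀ p, (∀ a ∈ A, p (vR a.1 a.2.1) = some 0 → Φ (sink p a)) → Φ p)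
    (p : Y K → Option ℕ) : Φ p := by
  induction e : (A.toFinset.filter fun a => p (vR a.1 a.2.1) ≠ none).card using Nat.strong_induction_on
    generalizing p with
  | _ n ih =>
    refine h p fun a ha h1 => ih _ (e ▸ Finset.card_lt_card ⟨fun b => ?_, fun h2 => ?_⟩) _ rfl
    · simp only [Finset.mem_filter, sink, mv_apply]
      grind
    · simpa [sink, mv_apply] using h2 (show a ∈ _ by simp [ha, h1])

theorem win_sink {a : Act K} (ha : a ∈ A) (h : p (1, a) = none) (h' : Lose (MoveF false (edges T A)) (sink p a)) :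
    Win (MoveF false (edges T A)) (mv p (vR a.1 a.2.1) (1, a) 0) :=
  .mk _ (move_iff.2 (.inl ⟨a, ha, .inr ⟨_, by simp [out], by simp [mv_apply, h], rfl⟩⟩)) h'

theorem end0 (p : Y K → Option ℕ) : Ty p (vC 7) → (∀ a, p (1, a) = none) → Lose (MoveF false (edges T A)) p := by
  induction p using ind (A := A) with | _ p ih
  intro h1 h2 q hq
  rcases move_iff.1 hq with ⟨a, ha, ⟨h, rfl⟩ | ⟨w, hw, h, rfl⟩⟩ | ⟨a, ha, ⟨h, rfl⟩ | ⟨w, hw, ⟨h, rfl⟩ | ⟨h, rfl⟩⟩⟩
  · exact win_sink ha (h2 a) (ih a ha h (by simp only [Ty, sink, mv_apply] at *; grind)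
      (by simp only [sink, mv_apply]; grind))
  · simp [h2] at h
  · simpa using h1 _ _ h
  · simpa using h1 _ _ h
  · have := h1 _ _ h
    have := wit_k hw
    grind

theorem win_dead {a : Act K} {w : Y K} (ha : a ∈ chk T A) (hw : w ∈ wit A a) (h : p w = some 1) (h1 : Ty p w)
    (h2 : ∀ a, p (1, a) = none) : Win (MoveF false (edges T A)) p :=
  .mk _ (move_iff.2 (.inr ⟨a, ha, .inr ⟨w, hw, .inr ⟨h, rfl⟩⟩⟩)) (end0 _
    (by simp only [Ty, mv_apply] at *; grind) (by simp only [mv_apply]; grind))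

theorem end1 {a : Act K} (p : Y K → Option ℕ) : Ty p (4, a) → (∀ a, p (1, a) = none) →
    (∀ w ∈ wit A a, p w = none) → Lose (MoveF false (edges T A)) p := by
  induction p using ind (A := A) with | _ p ih
  intro h1 h2 h3 q hq
  rcases move_iff.1 hq with ⟨b, hb, ⟨h, rfl⟩ | ⟨w, hw, h, rfl⟩⟩ | ⟨b, hb, ⟨h, rfl⟩ | ⟨w, hw, ⟨h, rfl⟩ | ⟨h, rfl⟩⟩⟩
  · exact win_sink hb (h2 b) (ih b hb h (by simp only [Ty, sink, mv_apply] at *; grind)
      (by simp only [sink, mv_apply]; grind) fun w hw => by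
        have := wit_k hw
        simp only [sink, mv_apply]; grind)
  · simp [h2] at h
  · simpa using h1 _ _ h
  · obtain rfl : b = a := by simpa using h1 _ _ h
    have := wit_k hw
    exact win_dead hb hw (by simp [mv_apply, h3 w hw]) (by simp only [Ty, mv_apply] at *; grind)
      (by simp only [mv_apply]; grind)
  · have := h1 _ _ h
    have := wit_k hw
    grind

theorem end2 {a c : Act K} (ha : a ∈ A) (hc : c ∈ chk T A) (p : Y K → Option ℕ) : Ty p (vC 6) → p (vC 6) = some 1 →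
    p (1, a) = some 0 → (∀ b, b ≠ a → p (1, b) = none) → Lose (MoveF false (edges T A)) p := by
  induction p using ind (A := A) with | _ p ih
  intro h1 h2 h3 h4 q hq
  rcases move_iff.1 hq with ⟨b, hb, ⟨h, rfl⟩ | ⟨w, hw, h, rfl⟩⟩ | ⟨b, hb, ⟨h, rfl⟩ | ⟨w, hw, ⟨h, rfl⟩ | ⟨h, rfl⟩⟩⟩
  · by_cases e : b = a
    · exact win_dead hc (w := vC 6) (by simp [wit]) (by simp [mv_apply, h2])
        (by simp only [Ty, mv_apply] at *; grind) (by simp only [mv_apply]; grind)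
    · exact win_sink hb (h4 b e) (ih b hb h (by simp only [Ty, sink, mv_apply] at *; grind)
        (by simp [sink, mv_apply, h2]) (by simp only [sink, mv_apply]; grind) (by simp only [sink, mv_apply]; grind))
  · have := out_k hw
    exact win_dead hc (w := vC 6) (by simp [wit]) (by simp only [mv_apply]; grind)
      (by simp only [Ty, mv_apply] at *; grind) (by simp only [mv_apply]; grind)
  · simpa using h1 _ _ h
  · simpa using h1 _ _ h
  · have := h1 _ _ h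
    have := wit_k hw
    exact .mk _ (move_iff.2 (.inl ⟨a, ha, .inr ⟨vT a.1, by simp [out], by simp only [mv_apply]; grind, rfl⟩⟩))
      (end0 _ (by simp only [Ty, mv_apply] at *; grind) (by simp only [mv_apply]; grind))

theorem win_chk {a : Act K} (ha : a ∈ chk T A) (h1 : Ty p (vC 5)) (h2 : p (vC 5) = some 1)
    (h3 : ∀ a, p (1, a) = none) (h4 : ∀ w ∈ wit A a, p w = none) : Win (MoveF false (edges T A)) p :=
  .mk _ (move_iff.2 (.inr ⟨a, ha, .inl ⟨h2, rfl⟩⟩)) (end1 (a := a) _ (by simp only [Ty, mv_apply] at *; grind)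
    (by simp only [mv_apply]; grind) fun w hw => by
      have := wit_k hw
      simp only [mv_apply]; grind)

/-- a pending action whose guard holds -/
def Pd (A : List (Act K)) (a : Act K) (p : Y K → Option ℕ) : Prop :=
  Ty p (vC 5) ∧ p (vC 5) = some 1 ∧ p (1, a) = some 0 ∧ (∀ b, b ≠ a → p (1, b) = none) ∧
    (∀ w ∈ wit A a, p w = none) ∧ p (2, a) = none

theorem pend {a : Act K} (ha : a ∈ A) (h : Pd A a p)
    (h1 : ∀ t ∈ a.2.2.2, Win (MoveF false (edges T A)) (mv p (1, a) (vR a.1 t) 0))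
    (h2 : ∀ b ∈ A, p (vR b.1 b.2.1) = some 0 → Lose (MoveF false (edges T A)) (sink p b)) :
    Lose (MoveF false (edges T A)) p := by
  intro q hq
  obtain ⟨a1, a2, a3, a4, a5, a6⟩ := h
  rcases move_iff.1 hq with ⟨b, hb, ⟨h, rfl⟩ | ⟨w, hw, h, rfl⟩⟩ | ⟨b, hb, ⟨h, rfl⟩ | ⟨w, hw, ⟨h, rfl⟩ | ⟨h, rfl⟩⟩⟩
  · exact win_sink hb (a4 b (by rintro rfl; simp [a5 _ (mem_wit.2 (.inr (.inl ⟨_, rfl⟩)))] at h)) (h2 b hb h)
  · obtain rfl : b = a := by grind
    rcases mem_out.1 hw with rfl | rfl | ⟨t, ht, rfl⟩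
    rotate_left 2
    · exact h1 t ht
    all_goals
      refine win_chk (a := b) (List.mem_append_left _ hb) (by simp only [Ty, mv_apply] at *; grind)
        (by simp [mv_apply, a2]) (by simp only [mv_apply]; grind) fun w hw => ?_
      have := mem_wit.1 hw
      simp only [mv_apply]; grind
  · have := a5 (vC 6) (by simp [wit])
    exact .mk _ (move_iff.2 (.inr ⟨b, hb, .inr ⟨vC 6, by simp [wit], .inl ⟨by
      simp [mv_apply, a1.four], rfl⟩⟩⟩)) (end2 ha hb _ (by simp only [Ty, mv_apply] at *; grind)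
      (by simp [mv_apply, this]) (by simp [mv_apply, a3]) (by simp only [mv_apply]; grind))
  · simpa using a1 _ _ h
  · have := a1 _ _ h
    have := wit_k hw
    grind

theorem pd_sink {a b : Act K} (h : Pd A a p) (hb : p (vR b.1 b.2.1) = some 0) : Pd A a (sink p b) := by
  obtain ⟨a1, a2, a3, a4, a5, a6⟩ := h
  have := a5 _ (mem_wit.2 (.inr (.inl ⟨b.2.1, rfl⟩)))
  refine ⟨by simp only [Ty, sink, mv_apply] at *; grind, by simp [sink, mv_apply, a2], ?_, ?_, fun w hw => ?_,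
    by simp [sink, mv_apply, a6]⟩
  rotate_left 2
  have := wit_k hw
  all_goals simp only [sink, mv_apply]; grind

theorem dev {a : Act K} (ha : a ∈ A) {y : K} (hy : y ∈ T) (e : y ≠ a.1) (p : Y K → Option ℕ) : Pd A a p →
    (∀ q, p (vR y q) = none) → Lose (MoveF false (edges T A)) p := by
  induction p using ind (A := A) with | _ p ih
  refine fun h1 h2 => pend ha h1 (fun t _ => ?_) fun b hb h =>
    ih b hb h (pd_sink h1 h) (by simp only [sink, mv_apply]; grind)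
  obtain ⟨a1, a2, a3, a4, a5, a6⟩ := h1
  refine win_chk (a := (y, q0, [], [])) (List.mem_append_right _ (List.mem_map_of_mem hy))
    (by simp only [Ty, mv_apply] at *; grind) (by simp [mv_apply, a2]) (by simp only [mv_apply]; grind)
    fun w hw => ?_
  have := mem_wit.1 hw
  have := fun w => (mem_wit (A := A) (a := a) (w := w)).2
  simp only [mv_apply]; grind

def Rep (σ : K → Option Q8) (p : Y K → Option ℕ) : Prop :=
  Ty p (vC 5) ∧ p (vC 5) = some 1 ∧ (∀ a, p (1, a) = none ∧ p (2, a) = none) ∧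
    ∀ k q, p (vR k q) = if σ k = some q then some 0 else none

theorem rep_step {σ : K → Option Q8} {a : Act K} (h : Rep σ p) (h1 : σ a.1 = some a.2.1) (t : Q8) :
    Rep (update σ a.1 (some t)) (mv (mv p (vR a.1 a.2.1) (1, a) 0) (1, a) (vR a.1 t) 0) := by
  obtain ⟨a1, a2, a3, a4⟩ := h
  refine ⟨by simp only [Ty, mv_apply] at *; grind, by simp [mv_apply, a2], fun b => ?_, fun k q => ?_⟩
  · have := a3 b
    simp only [mv_apply]; grind
  · have := a4 k q
    have := a4 a.1 t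
    have := (a3 a).1
    simp only [mv_apply, update_apply]; grind

theorem win_of (hA : ∀ a ∈ A, a.1 ∈ T) {σ : K → Option Q8} (h : AW A σ) :
    ∀ p, Rep σ p → Win (MoveF false (edges T A)) p := by
  induction h with
  | @act σ a ha a1 a2 _ ih =>
    intro p h
    have h0 : Pd A a (mv p (vR a.1 a.2.1) (1, a) 0) := by
      obtain ⟨b1, b2, b3, b4⟩ := h
      have := b1.six
      refine ⟨by simp only [Ty, mv_apply] at *; grind, by simp [mv_apply, b2], by simp [mv_apply, b3],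
        by simp +contextual [mv_apply, b3], fun w hw => ?_, by simp [mv_apply, b3]⟩
      rcases mem_wit.1 hw with rfl | ⟨q, rfl⟩ | ⟨x, hx, rfl⟩ | ⟨b, -, -, rfl⟩
      · simp [mv_apply, this]
      · simp +contextual [mv_apply, b4, a1, eq_comm (b := q)]
      · have := a2 x hx
        simp only [mv_apply, b4]; grind
      · simp [mv_apply, b3]
    refine .mk _ (move_iff.2 (.inl ⟨a, ha, .inl ⟨by simp [h.2.2.2, a1], rfl⟩⟩))
      (pend ha h0 (fun t ht => ih t ht _ (rep_step h a1 t)) fun b hb h1 =>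
        dev ha (hA b hb) ?_ _ (pd_sink h0 h1) ?_)
    · rintro e
      simp [e, h0.2.2.2.2.1 _ (mem_wit.2 (.inr (.inl ⟨_, rfl⟩)))] at h1
    · simp only [Rep, sink, mv_apply] at *
      grind

def Inv (T : List K) (A : List (Act K)) (p : Y K → Option ℕ) : Prop :=
  Ty p (vC 5) ∧ p (vC 5) = some 1 ∧ (∀ a, p (1, a) = none) ∧
    ((∃ σ, ¬AW A σ ∧ (∀ k ∈ T, σ k ≠ none) ∧ Rep σ p) ∨ (∀ a ∈ chk T A, ∃ w ∈ wit A a, p w = some 0) ∧
      (∃ a ∈ A, p (2, a) = some 0) ∧ ∀ a, p (2, a) ≠ none → p (vR a.1 a.2.1) = none)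

theorem inv_sink {b : Act K} (hb : b ∈ A) (a1 : Ty p (vC 5)) (a2 : p (vC 5) = some 1) (a3 : ∀ a, p (1, a) = none)
    (a4 : ∀ a, p (2, a) ≠ none → p (vR a.1 a.2.1) = none) (h : p (vR b.1 b.2.1) = some 0)
    (hw : ∃ w ∈ wit A b, w ≠ vR b.1 b.2.1 ∧ p w = some 0) :
    ∃ r, MoveF false (edges T A) (mv p (vR b.1 b.2.1) (1, b) 0) r ∧
      (Inv T A r ∨ Lose (MoveF false (edges T A)) r) := by
  have h2 : p (2, b) = none := by grind
  have h3 : mv (mv p (vR b.1 b.2.1) (1, b) 0) (1, b) (2, b) 0 (2, b) = some 0 := by simp [mv_apply, h2]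
  refine ⟨_, move_iff.2 (.inl ⟨b, hb, .inr ⟨(2, b), by simp [out], by simp [mv_apply, a3], rfl⟩⟩), .inl
    ⟨by simp only [Ty, mv_apply] at *; grind, by simp [mv_apply, a2], by simp only [mv_apply]; grind,
      .inr ⟨fun c _ => ?_, ⟨b, hb, h3⟩, by simp only [mv_apply]; grind⟩⟩⟩
  by_cases e : b = c
  · obtain ⟨w, b1, b2, b3⟩ := hw
    have := wit_k b1
    exact ⟨w, e ▸ b1, by simp only [mv_apply]; grind⟩
  · exact ⟨_, mem_wit.2 (.inr (.inr (.inr ⟨b, hb, e, rfl⟩))), h3⟩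

theorem not_win_of (hA : ∀ a ∈ A, a.1 ∈ T) {σ : K → Option Q8} (h : ¬AW A σ) (h1 : ∀ k ∈ T, σ k ≠ none)
    (h2 : Rep σ p) : ¬Win (MoveF false (edges T A)) p := by
  refine not_win (J := Inv T A) ?_ ⟨h2.1, h2.2.1, fun a => (h2.2.2.1 a).1, .inl ⟨σ, h, h1, h2⟩⟩
  rintro p ⟨a1, a2, a3, a4⟩ q hq
  rcases move_iff.1 hq with ⟨b, hb, ⟨h, rfl⟩ | ⟨w, hw, h, rfl⟩⟩ | ⟨b, hb, ⟨h, rfl⟩ | ⟨w, hw, ⟨h, rfl⟩ | ⟨h, rfl⟩⟩⟩
  · rcases a4 with ⟨σ, b1, b2, b3⟩ | ⟨-, ⟨a, b1, b2⟩, b3⟩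
    · have b4 : σ b.1 = some b.2.1 := by simpa [b3.2.2.2] using h
      by_cases g : ∀ w ∈ b.2.2.1, w.1 ≠ b.1 → σ w.1 ≠ some w.2
      · obtain ⟨t, ht, b5⟩ : ∃ t ∈ b.2.2.2, ¬AW A (update σ b.1 (some t)) := by
          by_contra hc
          exact b1 (.act b hb b4 g (by grind))
        have b6 := rep_step b3 b4 t
        exact ⟨_, move_iff.2 (.inl ⟨b, hb, .inr ⟨vR b.1 t, mem_out.2 (.inr (.inr ⟨t, ht, rfl⟩)),
          by simp [mv_apply, a3], rfl⟩⟩), .inl ⟨b6.1, b6.2.1, fun a => (b6.2.2.1 a).1,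
            .inl ⟨_, b5, by simp only [update_apply]; grind, b6⟩⟩⟩
      · push Not at g
        obtain ⟨x, c1, c2, c3⟩ := g
        exact inv_sink hb a1 a2 a3 (by simp [b3.2.2.1]) h
          ⟨_, mem_wit.2 (.inr (.inr (.inl ⟨x, c1, rfl⟩))), by simp [c2], by simp [b3.2.2.2, c3]⟩
    · exact inv_sink hb a1 a2 a3 b3 h ⟨_, mem_wit.2 (.inr (.inr (.inr ⟨a, b1, by grind, rfl⟩))), by simp, b2⟩
  · simp [a3] at h
  · obtain ⟨w, hw, b1⟩ : ∃ w ∈ wit A b, p w = some 0 := by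
      rcases a4 with ⟨σ, -, b2, b3⟩ | h
      · obtain ⟨t, ht⟩ := Option.ne_none_iff_exists'.1 (b2 b.1 (by
          rcases List.mem_append.1 hb with h | h
          · exact hA b h
          · obtain ⟨k, hk, rfl⟩ := List.mem_map.1 h
            exact hk))
        exact ⟨_, mem_wit.2 (.inr (.inl ⟨t, rfl⟩)), by simp [b3.2.2.2, ht]⟩
      · exact h.1 b hb
    have := wit_k hw
    exact ⟨_, move_iff.2 (.inr ⟨b, hb, .inr ⟨w, hw, .inl ⟨by simp [mv_apply, a1.four], rfl⟩⟩⟩),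
      .inr (end0 _ (by simp only [Ty, mv_apply] at *; grind) (by simp only [mv_apply]; grind))⟩
  · simpa using a1 _ _ h
  · have := a1 _ _ h
    have := wit_k hw
    grind

end Pool.Agent.H.MP_8c4891_lc
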