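import Pool.Agent.H.MP_8c4891_lc.A

set_option autoImplicit false
set_option linter.unusedSectionVars false

namespace Pool.Agent.H.MP_8c4891_lc

open Pool.Agent.Lib.CX Function

variable {K : Type} [DecidableEq K] [Inhabited K]

def init (T : List K) : List (Y K × ℕ) := (vC 5, 1) :: T.map fun k => (vR k q0, 0)

theorem rep (T : List K) : Rep (fun k => if k ∈ T then some q0 else none) (place (init T)) := by
  have : ∀ v, place (T.map fun k => (vR k q0, 0)) v = if ∃ k ∈ T, v = vR k q0 then some 0 else none := fun v => by
    induction T with
    | nil => simp [place]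
    | cons k T ih => by_cases h : v = vR k q0 <;> simp [place_cons, ih, h]
  simp only [Rep, Ty, init, place_cons, this]
  refine ⟨fun v i h => ?_, by simp, by simp, fun k q => by simp [eq_comm (a := q0), and_comm]⟩
  split_ifs at h with h1 h2
  · simp [h1, ← Option.some.inj h]
  · obtain ⟨k, -, rfl⟩ := h2
    simp [← Option.some.inj h]

variable [Enc K]

set_option synthInstance.maxSize 4000

theorem init_pt : PT (init (K := K)) := by unfold init; fun_prop
theorem chk_pt : PT fun a : List K × List (Act K) => chk a.1 a.2 := by unfold chk; fun_prop
theorem out_pt : PT (out (K := K)) := by unfold out; fun_prop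
theorem wit_pt : PT fun a : List (Act K) × Act K => wit a.1 a.2 := by unfold wit; fun_prop

theorem edges_pt : PT fun a : List K × List (Act K) => edges a.1 a.2 := by
  have := chk_pt (K := K)
  have := out_pt (K := K)
  have := wit_pt (K := K)
  unfold edges; fun_prop

theorem red_pt : PT fun a : List K × List (Act K) => tokName (edges a.1 a.2, init a.1) :=
  tokName_pt.comp (edges_pt.pair (init_pt.comp (by fun_prop)))

end Pool.Agent.H.MP_8c4891_lc
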